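import Pool.Agent.Y981.L2.Area3

/-!
# The area enclosed by a closed word, and insertion of arches
-/

set_option autoImplicit false

namespace Pool.Agent.X132.Ve

open H981 Finset
open Pool.Agent.TH795.EP
open Pool.Agent.Y981.L2 (ix ccr Encl Above area ccr_ins card_above' loop_close finite_encl Lo lo_ins
  lo_bot ix_zero)

/-- the cells enclosed by the closed word -/
def En (V : List St) : Set (ℤ × ℤ) := {c | Odd (ccr c.1 c.2 V)}

/-- the area of the closed word -/
noncomputable def ar2 (V : List St) : ℕ := (En V).ncard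

theorem encl_iff {M : ℕ} {V : List St} (hM : M = V.length + 1) (c : ℤ × ℤ) :
    Encl M (fun i : ZMod M => path V i.val) c ↔ c ∈ En V := by
  unfold Encl En
  rw [card_above' hM]
  exact Iff.rfl

theorem En_finite {V : List St} (hs : Saw V) (hadj : |dx V| + |dy V| = 1) (hl : 1 ≤ V.length) :
    (En V).Finite := by
  have hloop := loop_close (M := V.length + 1) rfl hl hs hadj
  have h := finite_encl (m := V.length + 1) (f := fun i : ZMod (V.length + 1) => path V i.val)
    hloop.2.2
  refine h.subset ?_
  intro c hc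
  exact (encl_iff rfl c).2 hc

theorem area_eq {M : ℕ} {V : List St} (hM : M = V.length + 1) :
    area M (fun i : ZMod M => path V i.val) = ar2 V := by
  unfold area ar2
  have h : Nat.card {c : ℤ × ℤ // Encl M (fun i : ZMod M => path V i.val) c} =
      {c : ℤ × ℤ | Encl M (fun i : ZMod M => path V i.val) c}.ncard := Nat.card_coe_set_eq _
  rw [h]
  congr 1
  ext c
  exact encl_iff hM c

/-! ### reflection -/

theorem path_sg (t : List St) (k : ℕ) : path (sg t) k = (-(path t k).1, (path t k).2) := by
  have h1 : (sg t).take k = sg (t.take k) := by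
    unfold sg
    rw [← List.map_take]
  unfold path
  rw [h1, dx_sg, dy_sg]

theorem ix_sg (a b : ℤ) (p q : ℤ × ℤ) :
    ix a b (-p.1, p.2) (-q.1, q.2) = ix (-1 - a) b p q := by
  unfold ix
  by_cases h : ((p.1 = -1 - a ∧ q.1 = -1 - a + 1) ∨ (p.1 = -1 - a + 1 ∧ q.1 = -1 - a)) ∧ b < p.2
  · rw [if_pos h, if_pos]
    refine ⟨?_, h.2⟩
    rcases h.1 with h1 | h1
    · right; simp only; omega
    · left; simp only; omega
  · rw [if_neg h, if_neg]
    rintro ⟨h1, h2⟩
    apply h
    simp only at h1 h2
    refine ⟨?_, h2⟩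
    rcases h1 with h1 | h1
    · right; omega
    · left; omega

theorem ccr_sg (a b : ℤ) (t : List St) : ccr a b (sg t) = ccr (-1 - a) b t := by
  unfold ccr
  rw [length_sg]
  have h0 : ((0 : ℤ), (0 : ℤ)) = (-((0 : ℤ), (0 : ℤ)).1, ((0 : ℤ), (0 : ℤ)).2) := by simp
  congr 1
  · apply Finset.sum_congr rfl
    intro j _
    rw [path_sg, path_sg, ix_sg]
  · rw [path_sg]
    nth_rw 1 [h0]
    rw [ix_sg]

theorem ar2_sg (t : List St) : ar2 (sg t) = ar2 t := by
  unfold ar2
  have h : En (sg t) = (fun c : ℤ × ℤ => (-1 - c.1, c.2)) '' En t := by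
    ext c
    constructor
    · intro hc
      refine ⟨(-1 - c.1, c.2), ?_, ?_⟩
      · unfold En at hc ⊢
        change Odd (ccr c.1 c.2 (sg t)) at hc
        rw [ccr_sg] at hc
        exact hc
      · simp
    · rintro ⟨d, hd, rfl⟩
      unfold En at hd ⊢
      change Odd (ccr (-1 - d.1) d.2 (sg t))
      rw [ccr_sg]
      have e : -1 - (-1 - d.1) = d.1 := by ring
      rw [e]
      exact hd
  rw [h]
  apply Set.ncard_image_of_injective
  intro c d hcd
  simp only [Prod.mk.injEq] at hcd
  exact Prod.ext (by omega) hcd.2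

theorem ar2_tw (s : St) (t : List St) : ar2 (tw s t) = ar2 t := by
  unfold tw
  split_ifs
  · rfl
  · exact ar2_sg t

/-! ### insertion -/

theorem ix_vert {a b : ℤ} {p q : ℤ × ℤ} (h : p.1 = q.1) : ix a b p q = 0 := by
  unfold ix
  rw [if_neg]
  rintro ⟨h1, -⟩
  rcases h1 with h1 | h1 <;> omega

theorem ix_add (a b u v : ℤ) (p q : ℤ × ℤ) :
    ix a b (u + p.1, v + p.2) (u + q.1, v + q.2) = ix (a - u) (b - v) p q := by
  unfold ix
  by_cases h : ((p.1 = a - u ∧ q.1 = a - u + 1) ∨ (p.1 = a - u + 1 ∧ q.1 = a - u)) ∧ b - v < p.2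
  · rw [if_pos h, if_pos]
    refine ⟨?_, by simp only; omega⟩
    rcases h.1 with h1 | h1
    · left; simp only; omega
    · right; simp only; omega
  · rw [if_neg h, if_neg]
    rintro ⟨h1, h2⟩
    apply h
    simp only at h1 h2
    refine ⟨?_, by omega⟩
    rcases h1 with h1 | h1
    · left; omega
    · right; omega

/-- crossing numbers after the insertion of an arch -/
theorem ccr_ins_add {V : List St} {i : ℕ} (hi : i < V.length) {t' : List St}
    (hx : dx t' = (V[i]).x) (hy : dy t' = (V[i]).y) (a b : ℤ) :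
    ccr a b (ins V i t') + ix a b (path V i) (path V (i + 1)) +
      ix (a - (path V i).1) (b - ((path V i).2 - 1)) (path t' t'.length) (0, 0) =
    ccr a b V + ccr (a - (path V i).1) (b - ((path V i).2 - 1)) t' := by
  unfold ccr
  rw [length_ins hi]
  have hd := disp_ins hi hx hy
  have hlast : path (ins V i t') (V.length + t'.length + 1) = path V V.length := by
    have h1 : V.length + t'.length + 1 = (ins V i t').length := (length_ins hi t').symm
    rw [h1, path_len, path_len, hd.1, hd.2]
  rw [hlast]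
  have hsplit : V.length + t'.length + 1 = i + ((1 + (t'.length + 1)) + (V.length - (i + 1))) := by
    omega
  have hsplit2 : V.length = i + (1 + (V.length - (i + 1))) := by omega
  have hA : ∑ j ∈ range i, ix a b (path (ins V i t') j) (path (ins V i t') (j + 1)) =
      ∑ j ∈ range i, ix a b (path V j) (path V (j + 1)) := by
    apply Finset.sum_congr rfl
    intro j hj
    rw [Finset.mem_range] at hj
    rw [path_ins_left hi t' (by omega), path_ins_left hi t' (by omega)]
  have hB1 : ∑ j ∈ range 1, ix a b (path (ins V i t') (i + j)) (path (ins V i t') (i + j + 1)) = 0 := by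
    rw [Finset.sum_range_one, add_zero]
    apply ix_vert
    rw [path_ins_left hi t' le_rfl, path_ins_mid hi t' (Nat.zero_le _)]
    simp [path]
  have hB2 : ∑ j ∈ range (t'.length + 1), ix a b (path (ins V i t') (i + (1 + j)))
      (path (ins V i t') (i + (1 + j) + 1)) =
      ∑ j ∈ range t'.length, ix (a - (path V i).1) (b - ((path V i).2 - 1)) (path t' j)
        (path t' (j + 1)) := by
    rw [Finset.sum_range_succ]
    have hlast2 : ix a b (path (ins V i t') (i + (1 + t'.length)))
        (path (ins V i t') (i + (1 + t'.length) + 1)) = 0 := by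
      apply ix_vert
      have e1 : i + (1 + t'.length) = i + (t'.length + 1) := by ring
      have e2 : i + (t'.length + 1) + 1 = i + (t'.length + (0 + 1) + 1) := by ring
      rw [e1, e2, path_ins_mid hi t' le_rfl, path_ins_right hi hx hy]
      obtain ⟨g1, g2⟩ := path_succ hi
      simp only [add_zero]
      rw [g1, path_len, hx]
    rw [hlast2, add_zero]
    apply Finset.sum_congr rfl
    intro j hj
    rw [Finset.mem_range] at hj
    have e1 : i + (1 + j) = i + (j + 1) := by ring
    have e2 : i + (j + 1) + 1 = i + ((j + 1) + 1) := by ring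
    rw [e1, e2, path_ins_mid hi t' (by omega), path_ins_mid hi t' (by omega), ix_add]
  have hD : ∑ j ∈ range (V.length - (i + 1)),
      ix a b (path (ins V i t') (i + (1 + (t'.length + 1) + j)))
        (path (ins V i t') (i + (1 + (t'.length + 1) + j) + 1)) =
      ∑ j ∈ range (V.length - (i + 1)), ix a b (path V (i + (1 + j))) (path V (i + (1 + j) + 1)) := by
    apply Finset.sum_congr rfl
    intro j _
    have e1 : i + (1 + (t'.length + 1) + j) = i + (t'.length + (j + 1) + 1) := by ring
    have e2 : i + (1 + (t'.length + 1) + j) + 1 = i + (t'.length + ((j + 1) + 1) + 1) := by ring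
    rw [e2, path_ins_right hi hx hy, e1, path_ins_right hi hx hy]
    congr 1
    · congr 1; ring
    · congr 1; ring
  rw [hsplit, Finset.sum_range_add, Finset.sum_range_add, Finset.sum_range_add, hA, hB1, hB2, hD]
  conv_rhs => rw [hsplit2, Finset.sum_range_add, Finset.sum_range_add, Finset.sum_range_one]
  simp only [add_zero, zero_add]
  rw [← hsplit2]
  ring

/-- **Additivity of the area.** -/
theorem ar2_ins {V : List St} {i : ℕ} (hi : i < V.length) (hs : V[i] = St.E ∨ V[i] = St.W)
    {t' : List St} (hx : dx t' = (V[i]).x) (hy : dy t' = 0)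
    (hV : (En V).Finite) (ht : (En t').Finite) :
    ar2 (ins V i t') ≤ ar2 V + ar2 t' + 1 := by
  have hy0 : (V[i]).y = 0 := by rcases hs with h | h <;> rw [h] <;> rfl
  obtain ⟨u, hu⟩ : ∃ u, u = (path V i).1 := ⟨_, rfl⟩
  obtain ⟨v, hv⟩ : ∃ v, v = (path V i).2 := ⟨_, rfl⟩
  obtain ⟨cell, hcell⟩ : ∃ cell : ℤ × ℤ, cell = (min u (u + (V[i]).x), v - 1) := ⟨_, rfl⟩
  have hsub : En (ins V i t') ⊆
      (En V ∪ (fun c : ℤ × ℤ => (c.1 + u, c.2 + (v - 1))) '' En t') ∪ {cell} := by
    intro c hc
    by_contra hcon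
    simp only [Set.mem_union, Set.mem_singleton_iff, not_or] at hcon
    obtain ⟨⟨h1, h2⟩, h3⟩ := hcon
    have h1' : Even (ccr c.1 c.2 V) := Nat.not_odd_iff_even.1 h1
    have h2' : Even (ccr (c.1 - u) (c.2 - (v - 1)) t') := by
      apply Nat.not_odd_iff_even.1
      intro ho
      apply h2
      exact ⟨(c.1 - u, c.2 - (v - 1)), ho, by simp⟩
    have key := ccr_ins_add hi hx (by rw [hy, hy0]) c.1 c.2
    rw [← hu, ← hv] at key
    have hev : Even (ix c.1 c.2 (path V i) (path V (i + 1)) +
        ix (c.1 - u) (c.2 - (v - 1)) (path t' t'.length) (0, 0)) := by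
      obtain ⟨g1, g2⟩ := path_succ hi
      have p1 : path V i = (u, v) := Prod.ext hu.symm hv.symm
      have p2 : path V (i + 1) = (u + (V[i]).x, v) := by
        apply Prod.ext
        · rw [g1, ← hu]
        · rw [g2, ← hv, hy0, add_zero]
      have p3 : path t' t'.length = ((V[i]).x, 0) := by rw [path_len, hx, hy]
      rw [p1, p2, p3]
      by_cases hcol : (u = c.1 ∧ u + (V[i]).x = c.1 + 1) ∨ (u = c.1 + 1 ∧ u + (V[i]).x = c.1)
      · have hcol' : ((V[i]).x = c.1 - u ∧ (0 : ℤ) = c.1 - u + 1) ∨
            ((V[i]).x = c.1 - u + 1 ∧ (0 : ℤ) = c.1 - u) := by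
          rcases hcol with h | h
          · right; omega
          · left; omega
        have hb : c.2 ≠ v - 1 := by
          intro hb
          apply h3
          rw [hcell]
          apply Prod.ext
          · simp only
            rcases hcol with h | h
            · rw [min_eq_left (by omega)]; exact h.1.symm
            · rw [min_eq_right (by omega)]; exact h.2.symm
          · exact hb
        unfold ix
        by_cases hlt : c.2 < v
        · rw [if_pos ⟨hcol, hlt⟩, if_pos ⟨hcol', by simp only; omega⟩]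
          decide
        · rw [if_neg (by rintro ⟨-, h⟩; exact hlt h), if_neg (by
            rintro ⟨-, h⟩
            simp only at h
            omega)]
          decide
      · have hcol' : ¬ (((V[i]).x = c.1 - u ∧ (0 : ℤ) = c.1 - u + 1) ∨
            ((V[i]).x = c.1 - u + 1 ∧ (0 : ℤ) = c.1 - u)) := by
          intro h
          apply hcol
          rcases h with h | h
          · right; omega
          · left; omega
        unfold ix
        rw [if_neg (fun h => hcol h.1), if_neg (fun h => hcol' h.1)]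
        decide
    have hodd : Odd (ccr c.1 c.2 (ins V i t')) := hc
    have h4 : Odd (ccr c.1 c.2 (ins V i t') + (ix c.1 c.2 (path V i) (path V (i + 1)) +
        ix (c.1 - u) (c.2 - (v - 1)) (path t' t'.length) (0, 0))) := hodd.add_even hev
    rw [← add_assoc, key] at h4
    exact (Nat.not_odd_iff_even.2 (h1'.add h2')) h4
  have hfin : ((En V ∪ (fun c : ℤ × ℤ => (c.1 + u, c.2 + (v - 1))) '' En t') ∪ {cell}).Finite :=
    (hV.union (ht.image _)).union (Set.finite_singleton _)
  have h1 := Set.ncard_le_ncard hsub hfin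
  have h2 := Set.ncard_union_le (En V ∪ (fun c : ℤ × ℤ => (c.1 + u, c.2 + (v - 1))) '' En t') {cell}
  have h3 := Set.ncard_union_le (En V) ((fun c : ℤ × ℤ => (c.1 + u, c.2 + (v - 1))) '' En t')
  have h4 := Set.ncard_image_le (f := fun c : ℤ × ℤ => (c.1 + u, c.2 + (v - 1))) ht
  rw [Set.ncard_singleton] at h2
  unfold ar2
  omega

/-! ### arches -/

theorem arch_adj {t : List St} (h : Arch t) : |dx t| + |dy t| = 1 := by
  rw [h.2.1, h.2.2.1]
  simp

theorem arch_len {t : List St} (h : Arch t) : 1 ≤ t.length := by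
  rcases Nat.eq_zero_or_pos t.length with h0 | h0
  · rw [List.length_eq_zero_iff] at h0
    rw [h0] at h
    have := h.2.1
    simp at this
  · exact h0

theorem arch_fin {t : List St} (h : Arch t) : (En t).Finite :=
  En_finite h.1 (arch_adj h) (arch_len h)

theorem arch_bot {t : List St} (h : Arch t) : Bot t :=
  lo_bot h.1 (by have := arch_len h; omega) h.2.2.2 h.2.2.1

/-- insertion of an arch in an arch -/
theorem arch_ins {V t : List St} (hV : Arch V) (ht : Arch t) {i : ℕ} (hi : i < V.length)
    (hs : V[i] = St.E ∨ V[i] = St.W) (hmin : ∀ k, (path V i).2 ≤ (path V k).2) :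
    Arch (ins V i (tw V[i] t)) ∧ ar2 (ins V i (tw V[i] t)) ≤ ar2 V + ar2 t + 1 := by
  have hy0 : (V[i]).y = 0 := by rcases hs with h | h <;> rw [h] <;> rfl
  have hx : dx (tw V[i] t) = (V[i]).x := dx_tw hs ht.2.1
  have hy : dy (tw V[i] t) = 0 := by rw [dy_tw]; exact ht.2.2.1
  have hy' : dy (tw V[i] t) = (V[i]).y := by rw [hy, hy0]
  have hneg : ∀ k, (path (tw V[i] t) k).2 ≤ 0 := fun k => by
    rw [path_tw_snd]; exact ht.2.2.2 k
  have hd := disp_ins hi hx hy'
  refine ⟨⟨saw_ins hV.1 hi (saw_tw ht.1) hx hy' hmin hneg, ?_, ?_, ?_⟩, ?_⟩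
  · rw [hd.1]; exact hV.2.1
  · rw [hd.2]; exact hV.2.2.1
  · exact lo_ins hi hx hy' hV.2.2.2 hneg
  · have h1 : (En (tw V[i] t)).Finite := by
      apply En_finite (saw_tw ht.1)
      · rw [hx, hy]
        rcases hs with h | h <;> rw [h] <;> simp
      · rw [length_tw]; exact arch_len ht
    have h2 := ar2_ins hi hs hx hy (arch_fin hV) h1
    rwa [ar2_tw] at h2

/-! ### decoding -/

/-- the decoding of an insertion -/
noncomputable def dcd (L : ℕ) (q : ℕ × List St) : List St × List St :=
  (q.2.take q.1 ++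
    ((if dx ((q.2.drop (q.1 + 1)).take L) = 1 then St.E else St.W) ::
      q.2.drop (q.1 + 1 + L + 1)),
    (if dx ((q.2.drop (q.1 + 1)).take L) = 1 then (q.2.drop (q.1 + 1)).take L else
      sg ((q.2.drop (q.1 + 1)).take L)))

theorem dcd_ins {w t : List St} {i L : ℕ} (hi : i < w.length) (hs : w[i] = St.E ∨ w[i] = St.W)
    (htx : dx t = 1) (htl : t.length = L) : dcd L (i, ins w i (tw w[i] t)) = (w, t) := by
  have hx : dx (tw w[i] t) = (w[i]).x := dx_tw hs htx
  have hlt : (tw w[i] t).length = L := by rw [length_tw, htl]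
  unfold dcd
  simp only
  have hlen : (w.take i).length = i := by rw [List.length_take]; omega
  have g1 : (ins w i (tw w[i] t)).take i = w.take i := by
    unfold ins
    have := List.take_left (l₁ := w.take i)
      (l₂ := St.S :: (tw w[i] t ++ (St.N :: w.drop (i + 1))))
    rwa [hlen] at this
  have g2 : (ins w i (tw w[i] t)).drop (i + 1) = tw w[i] t ++ (St.N :: w.drop (i + 1)) := by
    unfold ins
    have := List.drop_left (l₁ := w.take i)
      (l₂ := St.S :: (tw w[i] t ++ (St.N :: w.drop (i + 1))))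
    rw [hlen] at this
    rw [← List.drop_drop, this, List.drop_succ_cons, List.drop_zero]
  have g3 : ((ins w i (tw w[i] t)).drop (i + 1)).take L = tw w[i] t := by
    rw [g2]
    have := List.take_left (l₁ := tw w[i] t) (l₂ := St.N :: w.drop (i + 1))
    rwa [hlt] at this
  have g4 : (ins w i (tw w[i] t)).drop (i + 1 + L + 1) = w.drop (i + 1) := by
    have := List.drop_left (l₁ := tw w[i] t) (l₂ := St.N :: w.drop (i + 1))
    rw [hlt] at this
    rw [show i + 1 + L + 1 = (i + 1) + L + 1 by ring, ← List.drop_drop, ← List.drop_drop, g2,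
      this, List.drop_succ_cons, List.drop_zero]
  rw [g1, g3, g4, hx]
  have hw2 : w.take i ++ (w[i] :: w.drop (i + 1)) = w := by
    rw [← List.drop_eq_getElem_cons hi, List.take_append_drop]
  rcases hs with h | h
  · rw [h, St.x_E, if_pos rfl, if_pos rfl]
    rw [h] at hw2
    simp only [hw2, tw, if_true]
  · rw [h, St.x_W, if_neg (by norm_num), if_neg (by norm_num)]
    rw [h] at hw2
    have : tw St.W t = sg t := by simp [tw]
    rw [hw2, this, sg_sg]

/-- **Weighted insertion.** -/
theorem pairs_sum {m L : ℕ} (S : Finset (List St × List St)) (f : List St × List St → ℝ)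
    (C : List St → Prop) (H : List St → ℝ) (hH : ∀ W, 0 ≤ H W)
    (h : ∀ p ∈ S, ∃ (i : ℕ) (hi : i < p.1.length), p.1.length = m ∧ p.2.length = L ∧
      (p.1[i] = St.E ∨ p.1[i] = St.W) ∧ dx p.2 = 1 ∧ C (ins p.1 i (tw p.1[i] p.2)) ∧
      f p ≤ H (ins p.1 i (tw p.1[i] p.2))) :
    ∑ p ∈ S, f p ≤ m * ∑ W ∈ fs C (m + L + 1), H W := by
  classical
  let φ : List St × List St → ℕ × List St := fun p =>
    if hp : p ∈ S then
      ((h p hp).choose, ins p.1 (h p hp).choose (tw (p.1[(h p hp).choose]'(h p hp).choose_spec.choose) p.2))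
    else (0, [])
  have hφ : ∀ p ∈ S, dcd L (φ p) = p ∧ φ p ∈ range m ×ˢ fs C (m + L + 1) ∧ f p ≤ H (φ p).2 := by
    intro p hp
    have hspec := (h p hp).choose_spec.choose_spec
    have e : φ p = ((h p hp).choose,
        ins p.1 (h p hp).choose (tw (p.1[(h p hp).choose]'(h p hp).choose_spec.choose) p.2)) := by
      simp only [φ]
      rw [dif_pos hp]
    rw [e]
    obtain ⟨h1, h2, h3, h4, h5, h6⟩ := hspec
    have hi := (h p hp).choose_spec.choose
    refine ⟨dcd_ins hi h3 h4 h2, ?_, h6⟩
    rw [Finset.mem_product, Finset.mem_range, mem_fs]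
    refine ⟨by omega, h5, ?_⟩
    rw [length_ins hi, length_tw, h1, h2]
  have hinj : Set.InjOn φ S := by
    intro p hp q hq hpq
    have h1 := (hφ p hp).1
    have h2 := (hφ q hq).1
    rw [← h1, ← h2, hpq]
  calc ∑ p ∈ S, f p ≤ ∑ p ∈ S, H (φ p).2 := Finset.sum_le_sum fun p hp => (hφ p hp).2.2
    _ = ∑ q ∈ S.image φ, H q.2 := by rw [Finset.sum_image hinj]
    _ ≤ ∑ q ∈ range m ×ˢ fs C (m + L + 1), H q.2 := by
        apply Finset.sum_le_sum_of_subset_of_nonneg
        · intro q hq
          obtain ⟨p, hp, rfl⟩ := Finset.mem_image.1 hq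
          exact (hφ p hp).2.1
        · intro q _ _
          exact hH q.2
    _ = _ := by
        rw [Finset.sum_product]
        simp only
        rw [Finset.sum_const, Finset.card_range, nsmul_eq_mul]

end Pool.Agent.X132.Ve
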