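import Pool.Agent.X132.Ve.Fin

/-!
# The exponents of the free energy
-/

set_option autoImplicit false

namespace Pool.Agent.X132.Ve

open Filter Topology
open H981 (mu)
open Pool.Agent.Y981.L2 (ev_pow ev_log ev_inv ev_small ma mass mass_pos MassLow)

/-- `F s = log μ - κ(s)` -/
noncomputable def F (s : ℝ) : ℝ := Real.log mu - kap s

theorem F_mono {s t : ℝ} (hs : 0 ≤ s) (hst : s ≤ t) : F s ≤ F t := by
  have := kap_anti hs hst
  unfold F
  linarith

theorem tendsto_neg_pow {c : ℝ} (hc : 0 < c) :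
    Tendsto (fun s : ℝ => s ^ (-c)) (𝓝[>] 0) atTop := by
  have h := (tendsto_rpow_atTop hc).comp (tendsto_inv_nhdsGT_zero (𝕜 := ℝ))
  refine h.congr' ?_
  filter_upwards [self_mem_nhdsWithin] with s (hs : 0 < s)
  simp only [Function.comp]
  rw [Real.inv_rpow hs.le, Real.rpow_neg hs.le]

/-- **Upper bounds of the mean area give upper bounds of the free energy.** -/
theorem F_upper {α : ℝ} (hα : 0 < α)
    (H : ∀ ε : ℝ, 0 < ε → ∀ᶠ n : ℕ in atTop, ma n ≤ (n : ℝ) ^ (α + ε)) {ε : ℝ} (hε : 0 < ε) :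
    ∀ᶠ s in 𝓝[>] (0 : ℝ), F s ≤ s ^ (1 / α - ε) := by
  obtain ⟨K, hK, hF⟩ := F_le_ma
  obtain ⟨η, hη⟩ : ∃ η, η = ε * α ^ 2 / 2 := ⟨_, rfl⟩
  have hη0 : 0 < η := by rw [hη]; positivity
  obtain ⟨δ, hδ⟩ : ∃ δ, δ = min (ε * α / 4) (1 / 2) := ⟨_, rfl⟩
  have hδ0 : 0 < δ := by rw [hδ]; exact lt_min (by positivity) (by norm_num)
  have hδ1 : δ ≤ ε * α / 4 := by rw [hδ]; exact min_le_left _ _
  have hδ2 : δ ≤ 1 / 2 := by rw [hδ]; exact min_le_right _ _
  obtain ⟨c, hc⟩ : ∃ c, c = 1 / (α + η) := ⟨_, rfl⟩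
  have hαη : 0 < α + η := by linarith
  have hc0 : 0 < c := by rw [hc]; positivity
  have hcl : 1 / α - ε / 2 ≤ c := by
    rw [hc, hη, le_div_iff₀ (by rw [← hη]; exact hαη)]
    have : (1 / α - ε / 2) * (α + ε * α ^ 2 / 2) = 1 - ε ^ 2 * α ^ 2 / 4 := by
      field_simp
      ring
    rw [this]
    have : 0 ≤ ε ^ 2 * α ^ 2 / 4 := by positivity
    linarith
  have hcu : c ≤ 1 / α := by
    rw [hc]
    exact one_div_le_one_div_of_le hα (by linarith)
  have hexp : 1 / α - ε < c * (1 - δ) := by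
    have h1 : c * δ ≤ 1 / α * (ε * α / 4) := mul_le_mul hcu hδ1 hδ0.le (by positivity)
    have h2 : 1 / α * (ε * α / 4) = ε / 4 := by field_simp
    rw [h2] at h1
    linarith
  have hNt : Tendsto (fun s : ℝ => ⌊s ^ (-c)⌋₊) (𝓝[>] 0) atTop :=
    tendsto_nat_floor_atTop.comp (tendsto_neg_pow hc0)
  have hsmall : ∀ᶠ s in 𝓝[>] (0 : ℝ), 2 ^ (1 - δ) * s ^ (c * (1 - δ)) ≤ s ^ (1 / α - ε) :=
    ev_small _ hexp
  filter_upwards [hNt.eventually (H η hη0), hNt.eventually (ev_log K 2 hδ0),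
    hNt.eventually_ge_atTop 2, (tendsto_neg_pow hc0).eventually_ge_atTop 2, hsmall,
    self_mem_nhdsWithin, Ioo_mem_nhdsGT (show (0 : ℝ) < 1 by norm_num)] with s h1 h2 h3 h4 h5 hs h6
  obtain ⟨N, hN⟩ : ∃ N, N = ⌊s ^ (-c)⌋₊ := ⟨_, rfl⟩
  rw [← hN] at h1 h2 h3
  have hs0 : (0 : ℝ) < s := hs
  have hs1 : s < 1 := h6.2
  have hN0 : (0 : ℝ) < N := by exact_mod_cast (by omega : 0 < N)
  have hNu : (N : ℝ) ≤ s ^ (-c) := by rw [hN]; exact Nat.floor_le (by positivity)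
  have hNl : s ^ (-c) / 2 ≤ N := by
    have := Nat.lt_floor_add_one (s ^ (-c))
    rw [← hN] at this
    have hN1 : (2 : ℝ) ≤ N := by exact_mod_cast h3
    linarith
  have g1 := hF N h3 s hs0.le
  have g2 : s * ma N ≤ 1 := by
    have : ma N ≤ s⁻¹ := by
      refine h1.trans ?_
      calc (N : ℝ) ^ (α + η) ≤ (s ^ (-c)) ^ (α + η) := Real.rpow_le_rpow hN0.le hNu hαη.le
        _ = s ^ (-c * (α + η)) := (Real.rpow_mul hs0.le _ _).symm
        _ = s⁻¹ := by
          rw [hc]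
          have : -(1 / (α + η)) * (α + η) = -1 := by field_simp
          rw [this, Real.rpow_neg_one]
    calc s * ma N ≤ s * s⁻¹ := mul_le_mul_of_nonneg_left this hs0.le
      _ = 1 := mul_inv_cancel₀ hs0.ne'
  have g3 : 2 * N * F s ≤ (N : ℝ) ^ δ := by
    unfold F
    linarith
  have hF0 : 0 ≤ F s := F_nonneg hs0.le
  have g4 : F s ≤ (N : ℝ) ^ δ / N := by
    rw [le_div_iff₀ hN0]
    have : 0 ≤ N * F s := by positivity
    linarith
  refine g4.trans (le_trans ?_ h5)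
  have e1 : (N : ℝ) ^ δ / N = ((N : ℝ) ^ (1 - δ))⁻¹ := by
    rw [← Real.rpow_neg hN0.le]
    rw [show -(1 - δ) = δ - 1 by ring, Real.rpow_sub_one hN0.ne']
  rw [e1]
  have h7 : (s ^ (-c) / 2) ^ (1 - δ) ≤ (N : ℝ) ^ (1 - δ) :=
    Real.rpow_le_rpow (by positivity) hNl (by linarith)
  calc ((N : ℝ) ^ (1 - δ))⁻¹ ≤ ((s ^ (-c) / 2) ^ (1 - δ))⁻¹ :=
        inv_anti₀ (by positivity) h7
    _ = 2 ^ (1 - δ) * s ^ (c * (1 - δ)) := by
        rw [Real.div_rpow (by positivity) (by norm_num), ← Real.rpow_mul hs0.le, inv_div,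
          div_eq_mul_inv, ← Real.rpow_neg hs0.le]
        congr 2
        ring

/-- **Lower bounds of the free energy give lower bounds of the mean area.** -/
theorem ma_lower {φ : ℝ} (hφ : 0 < φ)
    (H : ∀ ε : ℝ, 0 < ε → ∀ᶠ s in 𝓝[>] (0 : ℝ), s ^ (φ + ε) ≤ F s) {ε : ℝ} (hε : 0 < ε) :
    ∀ᶠ n : ℕ in atTop, (n : ℝ) ^ (1 / φ - ε) ≤ ma n := by
  obtain ⟨K, hK, hF⟩ := F_le_ma
  obtain ⟨ε1, hε1⟩ : ∃ ε1, ε1 = min ε (1 / (2 * φ)) := ⟨_, rfl⟩
  have hε10 : 0 < ε1 := by rw [hε1]; exact lt_min hε (by positivity)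
  have hε11 : ε1 ≤ ε := by rw [hε1]; exact min_le_left _ _
  have hε12 : ε1 ≤ 1 / (2 * φ) := by rw [hε1]; exact min_le_right _ _
  obtain ⟨b, hb⟩ : ∃ b, b = 1 / φ - ε1 / 2 := ⟨_, rfl⟩
  have hb0 : 0 < b := by
    rw [hb]
    have : 1 / (2 * φ) = 1 / φ / 2 := by field_simp
    rw [this] at hε12
    have : 0 < 1 / φ := by positivity
    linarith
  obtain ⟨δ, hδ⟩ : ∃ δ, δ = φ * ε1 / (4 * b) := ⟨_, rfl⟩
  have hδ0 : 0 < δ := by rw [hδ]; positivity
  -- exponent of `n F(s)` is at least `φ ε1 / 4`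
  obtain ⟨β, hβ⟩ : ∃ β, β = φ * ε1 / 4 := ⟨_, rfl⟩
  have hβ0 : 0 < β := by rw [hβ]; positivity
  have hexp : 1 + -b * (φ + δ) = β := by
    rw [hδ, hβ]
    have e1 : b * (φ * ε1 / (4 * b)) = φ * ε1 / 4 := by field_simp
    have e2 : b * φ = 1 - φ * ε1 / 2 := by rw [hb]; field_simp
    linear_combination -e1 - e2
  have ht : Tendsto (fun n : ℕ => (n : ℝ) ^ (-b)) atTop (𝓝[>] 0) := by
    rw [tendsto_nhdsWithin_iff]
    constructor
    · exact (tendsto_rpow_neg_atTop hb0).comp tendsto_natCast_atTop_atTop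
    · filter_upwards [eventually_ge_atTop 1] with n hn
      have : (0 : ℝ) < n := by exact_mod_cast (by omega : 0 < n)
      exact Real.rpow_pos_of_pos this _
  filter_upwards [ht.eventually (H δ hδ0), ev_log K 1 hβ0, eventually_ge_atTop 2,
    ev_pow 1 (show 1 / φ - ε < b by rw [hb]; linarith),
    ht.eventually (Ioo_mem_nhdsGT (show (0 : ℝ) < 1 by norm_num))] with n h1 h2 h3 h4 h5
  have hn0 : (0 : ℝ) < n := by exact_mod_cast (by omega : 0 < n)
  have hs0 : (0 : ℝ) < (n : ℝ) ^ (-b) := h5.1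
  have g1 := hF n h3 _ hs0.le
  have g2 : (n : ℝ) ^ β ≤ n * F ((n : ℝ) ^ (-b)) := by
    calc (n : ℝ) ^ β = n * (n : ℝ) ^ (-b * (φ + δ)) := by
          rw [← hexp, Real.rpow_add hn0, Real.rpow_one]
      _ = n * ((n : ℝ) ^ (-b)) ^ (φ + δ) := by rw [Real.rpow_mul hn0.le]
      _ ≤ _ := mul_le_mul_of_nonneg_left h1 hn0.le
  have g3 : 1 ≤ (n : ℝ) ^ (-b) * ma n := by
    have h6 := h5.2
    unfold F at g2
    have : 1 ≤ (n : ℝ) ^ β := Real.one_le_rpow (by exact_mod_cast (by omega : 1 ≤ n)) hβ0.le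
    linarith
  rw [one_mul] at h4
  refine h4.trans ?_
  calc (n : ℝ) ^ b = (n : ℝ) ^ b * 1 := (mul_one _).symm
    _ ≤ (n : ℝ) ^ b * ((n : ℝ) ^ (-b) * ma n) := mul_le_mul_of_nonneg_left g3 (by positivity)
    _ = ma n := by rw [← mul_assoc, ← Real.rpow_add hn0, add_neg_cancel, Real.rpow_zero, one_mul]

/-- **Lower bounds of the free energy: small areas are unlikely.** -/
theorem sm_upper {φ b : ℝ} (hφ : 0 < φ)
    (H : ∀ ε : ℝ, 0 < ε → ∀ᶠ s in 𝓝[>] (0 : ℝ), s ^ (φ + ε) ≤ F s) (hb : 1 < b) (hbφ : φ * b < 1)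
    {ε : ℝ} (hε : 0 < ε) :
    ∀ᶠ n : ℕ in atTop, sm n ((n : ℝ) ^ b) ≤
      Real.exp (-(n : ℝ) ^ ((1 - φ * b) / (1 - φ) - ε)) := by
  obtain ⟨K, hK, hF⟩ := sm_le
  have hφ1 : φ < 1 := by nlinarith
  have hφ1' : 0 < 1 - φ := by linarith
  obtain ⟨γ, hγ⟩ : ∃ γ, γ = (b - 1) / (1 - φ) := ⟨_, rfl⟩
  obtain ⟨β, hβ⟩ : ∃ β, β = (1 - φ * b) / (1 - φ) := ⟨_, rfl⟩
  have hγ0 : 0 < γ := by rw [hγ]; exact div_pos (by linarith) hφ1'
  have hβ0 : 0 < β := by rw [hβ]; exact div_pos (by linarith) hφ1'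
  have e1 : b - γ = β := by rw [hγ, hβ]; field_simp; ring
  have e2 : 1 - γ * φ = β := by rw [hγ, hβ]; field_simp; ring
  rw [← hβ]
  obtain ⟨η, hη⟩ : ∃ η, η = min ε (β / 2) := ⟨_, rfl⟩
  have hη0 : 0 < η := by rw [hη]; exact lt_min hε (by positivity)
  have hη1 : η ≤ ε := by rw [hη]; exact min_le_left _ _
  have hη2 : η ≤ β / 2 := by rw [hη]; exact min_le_right _ _
  obtain ⟨g, hg⟩ : ∃ g, g = γ + η := ⟨_, rfl⟩
  have hg0 : 0 < g := by linarith
  obtain ⟨δ, hδ⟩ : ∃ δ, δ = η * (1 - φ) / (2 * g) := ⟨_, rfl⟩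
  have hδ0 : 0 < δ := by rw [hδ]; positivity
  have e3 : 1 + -g * (φ + δ) = β - η * (1 + φ) / 2 := by
    have h1 : g * δ = η * (1 - φ) / 2 := by rw [hδ]; field_simp
    have h2 : g * φ = γ * φ + η * φ := by rw [hg]; ring
    linear_combination -h1 - h2 + e2
  have e4 : -g + b = β - η := by rw [hg]; linarith
  have ht : Tendsto (fun n : ℕ => (n : ℝ) ^ (-g)) atTop (𝓝[>] 0) := by
    rw [tendsto_nhdsWithin_iff]
    constructor
    · exact (tendsto_rpow_neg_atTop hg0).comp tendsto_natCast_atTop_atTop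
    · filter_upwards [eventually_ge_atTop 1] with n hn
      have : (0 : ℝ) < n := by exact_mod_cast (by omega : 0 < n)
      exact Real.rpow_pos_of_pos this _
  have hlt : β - η < β - η * (1 + φ) / 2 := by nlinarith
  filter_upwards [ht.eventually (H δ hδ0), ev_log K 1 (show 0 < β - η by linarith),
    eventually_ge_atTop 2, ev_pow 2 hlt,
    ht.eventually (Ioo_mem_nhdsGT (show (0 : ℝ) < 1 by norm_num))] with n h1 h2 h3 h4 h5
  have hn0 : (0 : ℝ) < n := by exact_mod_cast (by omega : 0 < n)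
  have hn1 : (1 : ℝ) ≤ n := by exact_mod_cast (by omega : 1 ≤ n)
  have hs0 : (0 : ℝ) < (n : ℝ) ^ (-g) := h5.1
  refine (hF n h3 _ hs0.le ((n : ℝ) ^ b)).trans ?_
  apply Real.exp_le_exp.2
  have g2 : (n : ℝ) ^ (β - η * (1 + φ) / 2) ≤ n * F ((n : ℝ) ^ (-g)) := by
    calc (n : ℝ) ^ (β - η * (1 + φ) / 2) = n * (n : ℝ) ^ (-g * (φ + δ)) := by
          rw [← e3, Real.rpow_add hn0, Real.rpow_one]
      _ = n * ((n : ℝ) ^ (-g)) ^ (φ + δ) := by rw [Real.rpow_mul hn0.le]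
      _ ≤ _ := mul_le_mul_of_nonneg_left h1 hn0.le
  have g3 : (n : ℝ) ^ (-g) * (n : ℝ) ^ b = (n : ℝ) ^ (β - η) := by
    rw [← Real.rpow_add hn0, e4]
  have g4 : (n : ℝ) ^ (-g) ≤ 1 := h5.2.le
  have g5 : (n : ℝ) ^ (β - ε) ≤ (n : ℝ) ^ (β - η) :=
    Real.rpow_le_rpow_of_exponent_le hn1 (by linarith)
  unfold F at g2
  have g6 : (n : ℝ) ^ (-g) * ((n : ℝ) ^ b + 1) = (n : ℝ) ^ (β - η) + (n : ℝ) ^ (-g) := by
    rw [mul_add, g3, mul_one]
  rw [g6]
  have g7 : 0 < (n : ℝ) ^ (β - η) := by positivity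
  linarith

theorem tendsto_ls : Tendsto (fun s : ℝ => Real.log (1 / s)) (𝓝[>] 0) atTop := by
  have h := Real.tendsto_log_atTop.comp (tendsto_inv_nhdsGT_zero (𝕜 := ℝ))
  refine h.congr ?_
  intro s
  simp [Function.comp, one_div]

theorem tendsto_lls : Tendsto (fun s : ℝ => Real.log (Real.log (1 / s))) (𝓝[>] 0) atTop :=
  Real.tendsto_log_atTop.comp tendsto_ls

theorem ev_lls (D : ℝ) : ∀ᶠ s in 𝓝[>] (0 : ℝ),
    D * Real.log (Real.log (1 / s)) ^ 2 ≤ Real.log (1 / s) := by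
  have h1 : Tendsto (fun x : ℝ => Real.log x ^ 2 / x) atTop (𝓝 0) :=
    (Real.isLittleO_pow_log_id_atTop (n := 2)).tendsto_div_nhds_zero
  have h2 := (h1.comp tendsto_ls).const_mul D
  rw [mul_zero] at h2
  filter_upwards [h2.eventually (ge_mem_nhds (show (0 : ℝ) < 1 by norm_num)),
    tendsto_ls.eventually_gt_atTop 0] with L h3 h4
  simp only [Function.comp] at h3
  rwa [← mul_div_assoc, div_le_one h4] at h3

/-- **An unconditional upper bound of the free energy.** -/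
theorem F_log : ∃ a : ℝ, 0 < a ∧ ∀ᶠ s in 𝓝[>] (0 : ℝ),
    F s ≤ s ^ (1 / 2 + a / Real.log (Real.log (1 / s))) := by
  obtain ⟨K, hK, hF⟩ := F_le_mass
  obtain ⟨c, hc, hm⟩ := Y981.L2X.le_mass
  obtain ⟨b, hb⟩ : ∃ b, b = min (c / 4) (1 / 4) := ⟨_, rfl⟩
  have hb0 : 0 < b := by rw [hb]; exact lt_min (by positivity) (by norm_num)
  have hbc : b ≤ c / 4 := by rw [hb]; exact min_le_left _ _
  have hb4 : b ≤ 1 / 4 := by rw [hb]; exact min_le_right _ _
  refine ⟨b / 2, by positivity, ?_⟩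
  obtain ⟨G, hG⟩ : ∃ G : ℝ → ℝ, G = fun s : ℝ =>
    Real.exp (Real.log (1 / s) / 2 + b * (Real.log (1 / s) / Real.log (Real.log (1 / s)))) :=
    ⟨_, rfl⟩
  have hGt : Tendsto G (𝓝[>] 0) atTop := by
    have h1 : ∀ᶠ s in 𝓝[>] (0 : ℝ), Real.exp (Real.log (1 / s) / 2) ≤ G s := by
      filter_upwards [tendsto_ls.eventually_ge_atTop 1, tendsto_lls.eventually_ge_atTop 1]
        with s h1 h2
      rw [hG]
      apply Real.exp_le_exp.2
      have : 0 ≤ b * (Real.log (1 / s) / Real.log (Real.log (1 / s))) :=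
        mul_nonneg hb0.le (div_nonneg (by linarith) (by linarith))
      linarith
    refine tendsto_atTop_mono' _ h1 ?_
    exact Real.tendsto_exp_atTop.comp (tendsto_ls.atTop_div_const (by norm_num))
  have hNt : Tendsto (fun s => ⌊G s⌋₊) (𝓝[>] 0) atTop := tendsto_nat_floor_atTop.comp hGt
  have hNt' : Tendsto (fun s : ℝ => 1 / (2 * ((⌊G s⌋₊ : ℕ) : ℝ))) (𝓝[>] 0) (𝓝[>] 0) := by
    rw [tendsto_nhdsWithin_iff]
    constructor
    · have h0 : Tendsto (fun n : ℕ => 1 / (n : ℝ)) atTop (𝓝 0) := tendsto_one_div_atTop_nhds_zero_nat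
      have h1 := (h0.comp hNt).const_mul (1 / 2 : ℝ)
      rw [mul_zero] at h1
      refine h1.congr ?_
      intro s
      simp only [Function.comp]
      rw [one_div_mul_one_div]
    · filter_upwards [hNt.eventually_ge_atTop 1] with s hs
      have h1 : (0 : ℝ) < (⌊G s⌋₊ : ℕ) := by exact_mod_cast (by omega : 0 < ⌊G s⌋₊)
      have h2 : (0 : ℝ) < 2 * (⌊G s⌋₊ : ℕ) := by linarith
      exact one_div_pos.2 h2
  filter_upwards [hNt'.eventually hm, hNt.eventually_ge_atTop 2, hGt.eventually_ge_atTop 2,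
    tendsto_ls.eventually_ge_atTop 4, tendsto_lls.eventually_ge_atTop 1,
    ev_lls (4 / c), ev_lls (2 * (|Real.log (2 * K)| + 4) / b), self_mem_nhdsWithin]
    with s h1 h2 h3 h4 h5 h6 h7 hs
  have hs0 : (0 : ℝ) < s := hs
  obtain ⟨N, hN⟩ : ∃ N, N = ⌊G s⌋₊ := ⟨_, rfl⟩
  rw [← hN] at h1 h2
  have hNr : (2 : ℝ) ≤ N := by exact_mod_cast h2
  have hNp : (0 : ℝ) < N := by linarith
  have hNG : (N : ℝ) ≤ G s := by rw [hN]; exact Nat.floor_le (by linarith)
  have hGN : G s ≤ 2 * N := by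
    have := Nat.lt_floor_add_one (G s)
    rw [← hN] at this
    linarith
  obtain ⟨l, hl⟩ : ∃ l, l = Real.log (1 / s) := ⟨_, rfl⟩
  obtain ⟨m, hm'⟩ : ∃ m, m = Real.log l := ⟨_, rfl⟩
  obtain ⟨y, hy⟩ : ∃ y, y = Real.log (2 * (N : ℝ)) := ⟨_, rfl⟩
  have hG' : G s = Real.exp (l / 2 + b * (l / m)) := by rw [hG]; simp only; rw [← hl, ← hm']
  rw [← hl] at h4 h5 h6 h7 ⊢
  rw [← hm'] at h5 h6 h7 ⊢
  have hm0 : 0 < m := by linarith
  have hl0 : 0 < l := by linarith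
  have hlogG : Real.log (G s) = l / 2 + b * (l / m) := by rw [hG', Real.log_exp]
  have g1 : ∀ D : ℝ, D * m ^ 2 ≤ l → D * m ≤ l / m := by
    intro D hD
    rw [le_div_iff₀ hm0]
    nlinarith
  have g2 := g1 _ h6
  have g3 := g1 _ h7
  have hl2 := Real.log_two_lt_d9
  have hl2' := Real.log_two_gt_d9
  have hlm : b * (l / m) ≤ l / 4 := by
    have : l / m ≤ l := div_le_self hl0.le h5
    have h8 : b * (l / m) ≤ 1 / 4 * l := mul_le_mul hb4 this (by positivity) (by norm_num)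
    linarith
  have hlogN : Real.log N ≤ l / 2 + b * (l / m) := by
    rw [← hlogG]
    exact Real.log_le_log hNp hNG
  have hy1 : y ≤ l / 2 + b * (l / m) + Real.log 2 := by
    rw [hy, Real.log_mul (by norm_num) hNp.ne']
    linarith
  have hy2 : y ≤ l := by linarith
  have hy3 : l / 2 + b * (l / m) ≤ y := by
    rw [hy, ← hlogG]
    exact Real.log_le_log (by rw [hG']; exact Real.exp_pos _) hGN
  have hbl : 0 ≤ b * (l / m) := by positivity
  have hy0 : 0 < y := by linarith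
  have hly : Real.log y ≤ m := by
    rw [hm']
    exact Real.log_le_log hy0 hy2
  have hly0 : 0 < Real.log y := Real.log_pos (by linarith)
  have hmass : 0 < mass (1 / (2 * N)) := mass_pos (by positivity)
  have G1 : s * (1 / mass (1 / (2 * N))) ^ 2 ≤ 1 := by
    have e1 : Real.log (1 / (1 / (2 * (N : ℝ)))) = y := by rw [one_div_one_div, hy]
    rw [e1, Real.rpow_def_of_pos (by positivity), one_div (2 * (N : ℝ)), Real.log_inv, ← hy,
      ← one_div] at h1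
    have h10 : 1 / mass (1 / (2 * N)) ≤ Real.exp (y - c * (y / Real.log y)) := by
      rw [div_le_iff₀ hmass]
      have h11 := mul_le_mul_of_nonneg_left h1 (Real.exp_pos (y - c * (y / Real.log y))).le
      refine le_trans (le_of_eq ?_) h11
      rw [← Real.exp_add]
      have : y - c * (y / Real.log y) + -y * (1 - c / Real.log y) = 0 := by ring
      rw [this, Real.exp_zero]
    have h12 : l / 2 / m ≤ y / Real.log y := by
      rw [div_le_div_iff₀ hm0 hly0]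
      exact mul_le_mul (by linarith) hly hly0.le hy0.le
    have h13 : c * (l / 2 / m) ≤ c * (y / Real.log y) := mul_le_mul_of_nonneg_left h12 hc.le
    have e4 : c * (l / 2 / m) = c / 4 * (l / m) + c / 4 * (l / m) := by ring
    have h14 : b * (l / m) ≤ c / 4 * (l / m) := mul_le_mul_of_nonneg_right hbc (by positivity)
    have h15 : Real.log 2 ≤ c / 4 * (l / m) := by
      have h16 := mul_le_mul_of_nonneg_left g2 (show 0 ≤ c / 4 by positivity)
      have e5 : c / 4 * (4 / c * m) = m := by field_simp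
      rw [e5] at h16
      linarith
    have h17 : y - c * (y / Real.log y) ≤ l / 2 := by linarith
    have hs' : s = Real.exp (-l) := by
      rw [hl, one_div, Real.log_inv, neg_neg, Real.exp_log hs0]
    calc s * (1 / mass (1 / (2 * N))) ^ 2
        ≤ s * (Real.exp (y - c * (y / Real.log y))) ^ 2 := by
          apply mul_le_mul_of_nonneg_left _ hs0.le
          exact pow_le_pow_left₀ (by positivity) h10 2
      _ = Real.exp (-l + 2 * (y - c * (y / Real.log y))) := by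
          rw [hs', ← Real.exp_nat_mul, ← Real.exp_add]
          norm_num
      _ ≤ 1 := by
          rw [Real.exp_le_one_iff]
          linarith
  have G2 := hF N h2 s hs0.le G1
  have hlogN0 : 0 ≤ Real.log (N : ℝ) := Real.log_nonneg (by linarith)
  have hlogNl : Real.log (N : ℝ) ≤ l := by linarith
  have G3 : F s ≤ 2 * K * l ^ 4 * Real.exp (-(l / 2 + b * (l / m))) := by
    refine le_trans (show F s ≤ _ from G2) ?_
    rw [div_le_iff₀ hNp]
    have h13 : Real.exp (-(l / 2 + b * (l / m))) * Real.exp (l / 2 + b * (l / m)) = 1 := by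
      rw [← Real.exp_add, neg_add_cancel, Real.exp_zero]
    have h14 : 1 ≤ Real.exp (-(l / 2 + b * (l / m))) * (2 * N) := by
      rw [← h13, ← hG']
      exact mul_le_mul_of_nonneg_left hGN (Real.exp_pos _).le
    calc K * Real.log N ^ 4 ≤ K * l ^ 4 :=
          mul_le_mul_of_nonneg_left (pow_le_pow_left₀ hlogN0 hlogNl 4) hK.le
      _ = K * l ^ 4 * 1 := by ring
      _ ≤ K * l ^ 4 * (Real.exp (-(l / 2 + b * (l / m))) * (2 * N)) :=
          mul_le_mul_of_nonneg_left h14 (by positivity)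
      _ = _ := by ring
  refine G3.trans ?_
  have e1 : 2 * K * l ^ 4 = Real.exp (Real.log (2 * K) + 4 * m) := by
    rw [Real.exp_add, Real.exp_log (by positivity)]
    have : (4 : ℝ) * m = Real.log (l ^ 4) := by rw [Real.log_pow, hm']; norm_num
    rw [this, Real.exp_log (by positivity)]
  rw [e1, ← Real.exp_add, Real.rpow_def_of_pos hs0]
  have hls : Real.log s = -l := by rw [hl, one_div, Real.log_inv, neg_neg]
  rw [hls]
  apply Real.exp_le_exp.2
  have h14 : |Real.log (2 * K)| + 4 * m ≤ 1 / 2 * (b * (l / m)) := by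
    have h15 := mul_le_mul_of_nonneg_left g3 (show 0 ≤ 1 / 2 * b by positivity)
    have e5 : 1 / 2 * b * (2 * (|Real.log (2 * K)| + 4) / b * m) =
        |Real.log (2 * K)| * m + 4 * m := by
      field_simp
    have h16 : |Real.log (2 * K)| ≤ |Real.log (2 * K)| * m := by
      have := abs_nonneg (Real.log (2 * K))
      nlinarith
    rw [e5] at h15
    linarith
  have h15 := le_abs_self (Real.log (2 * K))
  have e6 : -l * (1 / 2 + b / 2 / m) = -(l / 2) - 1 / 2 * (b * (l / m)) := by ring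
  rw [e6]
  linarith

/-- **The free energy and the exponent of the correlation length.** -/
theorem F_massLow {θ : ℝ} (h0 : 0 < θ) (h1 : θ < 1) (M : MassLow θ) {ε : ℝ} (hε : 0 < ε) :
    ∀ᶠ s in 𝓝[>] (0 : ℝ), F s ≤ s ^ (1 / (2 * θ) - ε) :=
  F_upper (by positivity) (Y981.L2.areaUp_ma h0 (Y981.L2.polyUp_areaUp
    (Y981.L2.rUp_polyUp h1 (Y981.L2.massLow_rUp M)))) hε

end Pool.Agent.X132.Ve
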