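import Pool.Agent.X132.Ve.Lp
import Pool.Agent.Y981.L2X.Poly
import Pool.Agent.Y981.L2X.High

/-!
# The free energy near the critical point and the mean area
-/

set_option autoImplicit false

namespace Pool.Agent.X132.Ve

open H981 Finset Filter Topology
open Pool.Agent.TH795.EP
open Pool.Agent.TH795.EP2 (exists_K)
open Pool.Agent.Y981.L2 (area Encl Above ma mass mass_pos)

/-- the number of loops -/
noncomputable def lc (n : ℕ) : ℕ := {f : ZMod (2 * n) → ℤ × ℤ | IsLoop (2 * n) f}.ncard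

/-- the proportion of loops with area at most `r` -/
noncomputable def sm (n : ℕ) (r : ℝ) : ℝ :=
  ({f : ZMod (2 * n) → ℤ × ℤ | IsLoop (2 * n) f ∧ (area (2 * n) f : ℝ) ≤ r}.ncard : ℝ) / lc n

theorem lc_card {n : ℕ} (hn : 1 ≤ n) : lc n = (LS_fin hn).toFinset.card :=
  Set.ncard_eq_toFinset_card _ (LS_fin hn)

theorem lc_low : ∃ K : ℝ, 0 ≤ K ∧ ∀ n : ℕ, 2 ≤ n →
    mu ^ (2 * n) * Real.exp (-(K * Real.log n ^ 2)) ≤ lc n := by
  obtain ⟨K, hK, -, h⟩ := exists_K
  refine ⟨K, hK, ?_⟩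
  intro n hn
  have h1 := h n hn n hn le_rfl
  unfold Pool.Agent.TH795.EP2.q at h1
  rw [neg_mul] at h1
  refine h1.trans ?_
  have h2 := le_loops (show 1 ≤ n by omega) (fun _ => (1 : ℝ)) fun _ => zero_le_one
  simp only [Finset.sum_const, nsmul_eq_mul, mul_one] at h2
  rw [lc_card (show 1 ≤ n by omega)]
  exact h2

theorem lc_pos {n : ℕ} (hn : 2 ≤ n) : (0 : ℝ) < lc n := by
  obtain ⟨K, -, h⟩ := lc_low
  have hmu := mu_pos
  exact lt_of_lt_of_le (by positivity) (h n hn)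

/-- Jensen's inequality -/
theorem jensen {n : ℕ} (hn : 2 ≤ n) {s : ℝ} (_hs : 0 ≤ s) :
    (lc n : ℝ) * Real.exp (-(s * ma n)) ≤ Zl s n := by
  have hl := lc_pos hn
  rw [Zl_eq s (show 1 ≤ n by omega)]
  obtain ⟨A, hA⟩ : ∃ A, A = ma n := ⟨_, rfl⟩
  have hsum : ∑ f ∈ (LS_fin (show 1 ≤ n by omega)).toFinset, (area (2 * n) f : ℝ) = lc n * A := by
    rw [hA]
    unfold ma
    have e : ∑ᶠ f ∈ {f : ZMod (2 * n) → ℤ × ℤ | IsLoop (2 * n) f}, (area (2 * n) f : ℝ) =
        ∑ f ∈ (LS_fin (show 1 ≤ n by omega)).toFinset, (area (2 * n) f : ℝ) :=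
      finsum_mem_eq_finite_toFinset_sum _ (LS_fin (show 1 ≤ n by omega))
    rw [e]
    unfold lc at hl ⊢
    field_simp
  rw [← hA]
  calc (lc n : ℝ) * Real.exp (-(s * A))
      = ∑ f ∈ (LS_fin (show 1 ≤ n by omega)).toFinset,
          Real.exp (-(s * A)) * (1 - s * ((area (2 * n) f : ℝ) - A)) := by
        rw [← Finset.mul_sum, Finset.sum_sub_distrib, ← Finset.mul_sum, Finset.sum_sub_distrib,
          hsum, Finset.sum_const, Finset.sum_const, nsmul_eq_mul, nsmul_eq_mul,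
          ← lc_card (show 1 ≤ n by omega)]
        ring
    _ ≤ _ := by
        apply Finset.sum_le_sum
        intro f _
        have h1 := Real.add_one_le_exp (-(s * ((area (2 * n) f : ℝ) - A)))
        have h2 : Real.exp (-(s * (area (2 * n) f : ℝ))) =
            Real.exp (-(s * A)) * Real.exp (-(s * ((area (2 * n) f : ℝ) - A))) := by
          rw [← Real.exp_add]; congr 1; ring
        rw [h2]
        apply mul_le_mul_of_nonneg_left _ (Real.exp_pos _).le
        linarith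

theorem log_four {n : ℕ} (hn : 2 ≤ n) : Real.log (4 * n) ≤ 5 * Real.log n ^ 2 := by
  have hn2 : (2 : ℝ) ≤ n := by exact_mod_cast hn
  have hlog2 : Real.log 2 ≤ Real.log n := Real.log_le_log (by norm_num) hn2
  have hl2 := Real.log_two_gt_d9
  have h4 : Real.log 4 = 2 * Real.log 2 := by
    rw [show (4 : ℝ) = 2 ^ 2 by norm_num, Real.log_pow]; norm_num
  rw [Real.log_mul (by norm_num) (by positivity), h4]
  nlinarith

theorem log_Zl_le {s : ℝ} (hs : 0 ≤ s) {n : ℕ} (hn : 2 ≤ n) :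
    Real.log (Zl s n) ≤ 2 * n * kap s + s + 10 * Real.log n ^ 2 := by
  have hn0 : (0 : ℝ) < n := by exact_mod_cast (by omega : 0 < n)
  have p := Wa_pos s (show 1 ≤ n by omega)
  have h1 := Real.log_le_log (Zl_pos s (show 1 ≤ n by omega)) (Zl_le s hn)
  rw [Real.log_mul (by positivity) p.ne'] at h1
  have h2 := log_Wa_le_kap hs (show 1 ≤ n by omega)
  have h3 := log_four hn
  linarith

/-- **The free energy and the mean area.** -/
theorem F_le_ma : ∃ K : ℝ, 0 ≤ K ∧ ∀ n : ℕ, 2 ≤ n → ∀ s : ℝ, 0 ≤ s →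
    2 * n * (Real.log mu - kap s) ≤ s * (ma n + 1) + K * Real.log n ^ 2 := by
  obtain ⟨K, hK, h⟩ := lc_low
  refine ⟨K + 10, by positivity, ?_⟩
  intro n hn s hs
  have hmu := mu_pos
  have hl := lc_pos hn
  have h1 := jensen hn hs
  have h2 := Real.log_le_log (by positivity) h1
  rw [Real.log_mul hl.ne' (Real.exp_pos _).ne', Real.log_exp] at h2
  have h3 := Real.log_le_log (by positivity) (h n hn)
  rw [Real.log_mul (by positivity) (Real.exp_pos _).ne', Real.log_exp, Real.log_pow] at h3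
  push_cast at h3
  have h4 := log_Zl_le hs hn
  linarith

/-- **The free energy and small areas.** -/
theorem sm_le : ∃ K : ℝ, 0 ≤ K ∧ ∀ n : ℕ, 2 ≤ n → ∀ s : ℝ, 0 ≤ s → ∀ a : ℝ,
    sm n a ≤ Real.exp (s * (a + 1) - 2 * n * (Real.log mu - kap s) + K * Real.log n ^ 2) := by
  classical
  obtain ⟨K, hK, h⟩ := lc_low
  refine ⟨K + 10, by positivity, ?_⟩
  intro n hn s hs a
  have hn1 : 1 ≤ n := by omega
  have hmu := mu_pos
  have hl := lc_pos hn
  have hZ := Zl_pos s hn1
  have h1 : ({f : ZMod (2 * n) → ℤ × ℤ | IsLoop (2 * n) f ∧ (area (2 * n) f : ℝ) ≤ a}.ncard : ℝ) *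
      Real.exp (-(s * a)) ≤ Zl s n := by
    have e1 : {f : ZMod (2 * n) → ℤ × ℤ | IsLoop (2 * n) f ∧ (area (2 * n) f : ℝ) ≤ a}.ncard =
        ((LS_fin hn1).toFinset.filter (fun f => (area (2 * n) f : ℝ) ≤ a)).card := by
      rw [← Set.ncard_coe_finset]
      congr 1
      ext f
      simp [LS]
    rw [e1, Zl_eq s hn1]
    calc (((LS_fin hn1).toFinset.filter (fun f => (area (2 * n) f : ℝ) ≤ a)).card : ℝ) *
          Real.exp (-(s * a))
        = ∑ f ∈ (LS_fin hn1).toFinset.filter (fun f => (area (2 * n) f : ℝ) ≤ a),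
            Real.exp (-(s * a)) := by rw [Finset.sum_const, nsmul_eq_mul]
      _ ≤ ∑ f ∈ (LS_fin hn1).toFinset.filter (fun f => (area (2 * n) f : ℝ) ≤ a),
            Real.exp (-(s * area (2 * n) f)) := by
          apply Finset.sum_le_sum
          intro f hf
          rw [Finset.mem_filter] at hf
          apply Real.exp_le_exp.2
          have := mul_le_mul_of_nonneg_left hf.2 hs
          linarith
      _ ≤ _ := by
          apply Finset.sum_le_sum_of_subset_of_nonneg (Finset.filter_subset _ _)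
          intro f _ _
          exact (Real.exp_pos _).le
  unfold sm
  rw [div_le_iff₀ hl]
  have h2 : ({f : ZMod (2 * n) → ℤ × ℤ | IsLoop (2 * n) f ∧ (area (2 * n) f : ℝ) ≤ a}.ncard : ℝ) ≤
      Zl s n * Real.exp (s * a) := by
    have h3 := mul_le_mul_of_nonneg_right h1 (Real.exp_pos (s * a)).le
    rw [mul_assoc, ← Real.exp_add, neg_add_cancel, Real.exp_zero, mul_one] at h3
    exact h3
  refine h2.trans ?_
  have h4 := log_Zl_le hs hn
  rw [Real.log_le_iff_le_exp hZ] at h4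
  have h5 := h n hn
  calc Zl s n * Real.exp (s * a) ≤ Real.exp (2 * n * kap s + s + 10 * Real.log n ^ 2) *
        Real.exp (s * a) := mul_le_mul_of_nonneg_right h4 (Real.exp_pos _).le
    _ = Real.exp (s * (a + 1) - 2 * n * (Real.log mu - kap s) + (K + 10) * Real.log n ^ 2) *
        (mu ^ (2 * n) * Real.exp (-(K * Real.log n ^ 2))) := by
        have e : mu ^ (2 * n) = Real.exp (2 * n * Real.log mu) := by
          rw [← Real.exp_log (pow_pos hmu (2 * n)), Real.log_pow]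
          push_cast
          rfl
        rw [e, ← Real.exp_add, ← Real.exp_add, ← Real.exp_add]
        congr 1
        ring
    _ ≤ _ := mul_le_mul_of_nonneg_left h5 (Real.exp_pos _).le

theorem kap_zero : kap 0 = Real.log mu := by
  obtain ⟨K1, hK1, h1⟩ := Pool.Agent.TH508.LT.sq_PP2
  obtain ⟨K, hK, h⟩ := lc_low
  obtain ⟨K2, hK2, h2⟩ := Pool.Agent.Y981.L2.ln_le
  have hmu := mu_pos
  have hZ : ∀ n : ℕ, 1 ≤ n → Zl 0 n = lc n := by
    intro n hn
    rw [Zl_eq 0 hn, lc_card hn]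
    simp
  have ht := Zl_tendsto (le_refl (0 : ℝ))
  have hlog : ∀ C : ℝ, Tendsto (fun n : ℕ => Real.log mu + C * Real.log n ^ 2 / (2 * n)) atTop
      (𝓝 (Real.log mu)) := by
    intro C
    have h3 : Tendsto (fun x : ℝ => Real.log x ^ 2 / x) atTop (𝓝 0) :=
      (Real.isLittleO_pow_log_id_atTop (n := 2)).tendsto_div_nhds_zero
    have h4 := ((h3.comp (tendsto_natCast_atTop_atTop (R := ℝ))).const_mul (C / 2)).const_add
      (Real.log mu)
    rw [mul_zero, add_zero] at h4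
    refine h4.congr ?_
    intro n
    simp only [Function.comp]
    ring
  apply tendsto_nhds_unique ht
  apply tendsto_of_tendsto_of_tendsto_of_le_of_le' (hlog (-K)) (hlog K2)
  · filter_upwards [eventually_ge_atTop 2] with n hn
    have hn0 : (0 : ℝ) < n := by exact_mod_cast (by omega : 0 < n)
    rw [hZ n (by omega), le_div_iff₀ (by positivity)]
    have h3 := Real.log_le_log (by positivity) (h n hn)
    rw [Real.log_mul (by positivity) (Real.exp_pos _).ne', Real.log_exp, Real.log_pow] at h3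
    push_cast at h3
    have e : (Real.log mu + -K * Real.log n ^ 2 / (2 * n)) * (2 * n) =
      2 * n * Real.log mu - K * Real.log n ^ 2 := by field_simp; ring
    rw [e]
    linarith
  · filter_upwards [eventually_ge_atTop 2] with n hn
    have hn0 : (0 : ℝ) < n := by exact_mod_cast (by omega : 0 < n)
    rw [hZ n (by omega), div_le_iff₀ (by positivity)]
    obtain ⟨-, h3⟩ := h2 n hn
    have h4 : (lc n : ℝ) ≤ mu ^ (2 * n) * Pool.Agent.TH795.EP2.q n K2 := h3
    unfold Pool.Agent.TH795.EP2.q at h4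
    have h5 := Real.log_le_log (lc_pos hn) h4
    rw [Real.log_mul (by positivity) (Real.exp_pos _).ne', Real.log_exp, Real.log_pow] at h5
    push_cast at h5
    have e : (Real.log mu + K2 * Real.log n ^ 2 / (2 * n)) * (2 * n) =
      2 * n * Real.log mu + K2 * Real.log n ^ 2 := by field_simp
    rw [e]
    linarith

theorem F_nonneg {s : ℝ} (hs : 0 ≤ s) : 0 ≤ Real.log mu - kap s := by
  have := kap_anti (le_refl (0 : ℝ)) hs
  rw [kap_zero] at this
  linarith

/-- the free energy and the correlation length -/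
theorem F_le_mass : ∃ K : ℝ, 0 < K ∧ ∀ N : ℕ, 2 ≤ N → ∀ s : ℝ, 0 ≤ s →
    s * (1 / mass (1 / (2 * N))) ^ 2 ≤ 1 → Real.log mu - kap s ≤ K * Real.log N ^ 4 / N := by
  obtain ⟨K1, hK1, h1⟩ := F_le_ma
  obtain ⟨K2, hK2, h2⟩ := Pool.Agent.Y981.L2X.area_mean
  obtain ⟨M, hM⟩ : ∃ M, M = mass 1 := ⟨_, rfl⟩
  have hM0 : 0 < M := by rw [hM]; exact mass_pos one_pos
  refine ⟨K2 + 3 * K1 + 9 * M ^ 2, by positivity, ?_⟩
  intro N hN s hs hsx
  have hN0 : (0 : ℝ) < N := by exact_mod_cast (by omega : 0 < N)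
  have hN2 : (2 : ℝ) ≤ N := by exact_mod_cast hN
  have hlog2 : Real.log 2 ≤ Real.log N := Real.log_le_log (by norm_num) hN2
  have hl2 := Real.log_two_gt_d9
  obtain ⟨w, hw⟩ : ∃ w, w = Real.log (N : ℝ) := ⟨_, rfl⟩
  rw [← hw] at hlog2 ⊢
  have hw1 : 0.48 ≤ w ^ 2 := by nlinarith
  have hw4 : w ^ 2 ≤ 3 * w ^ 4 := by
    have : w ^ 4 = w ^ 2 * w ^ 2 := by ring
    nlinarith
  have hw5 : 0.23 ≤ w ^ 4 := by
    have : w ^ 4 = w ^ 2 * w ^ 2 := by ring
    nlinarith
  obtain ⟨m, hm⟩ : ∃ m, m = mass (1 / (2 * N)) := ⟨_, rfl⟩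
  have hm0 : 0 < m := by rw [hm]; exact mass_pos (by positivity)
  have hmM : m ≤ M := by
    rw [hm, hM]
    apply Pool.Agent.Y981.L2.mass_mono (by positivity)
    rw [div_le_one (by positivity)]
    linarith
  have g1 := h1 N hN s hs
  have g2 := h2 N hN
  rw [← hw, ← hm] at g2
  rw [← hw] at g1
  rw [← hm] at hsx
  have hsm : s ≤ m ^ 2 := by
    rw [div_pow, one_pow, mul_one_div, div_le_one (by positivity)] at hsx
    exact hsx
  have hsM : s ≤ M ^ 2 := hsm.trans (pow_le_pow_left₀ hm0.le hmM 2)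
  have g3 : s * ma N ≤ K2 * w ^ 4 := by
    calc s * ma N ≤ s * (K2 * (1 / m) ^ 2 * w ^ 4) := mul_le_mul_of_nonneg_left g2 hs
      _ = (s * (1 / m) ^ 2) * (K2 * w ^ 4) := by ring
      _ ≤ 1 * (K2 * w ^ 4) := mul_le_mul_of_nonneg_right hsx (by positivity)
      _ = _ := one_mul _
  rw [le_div_iff₀ hN0]
  have g4 : K1 * w ^ 2 ≤ K1 * (3 * w ^ 4) := mul_le_mul_of_nonneg_left hw4 hK1
  have g5 : M ^ 2 ≤ 9 * M ^ 2 * w ^ 4 := by
    have : M ^ 2 * 1 ≤ M ^ 2 * (9 * w ^ 4) := mul_le_mul_of_nonneg_left (by linarith) (by positivity)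
    linarith
  have g6 : 2 * N * (Real.log mu - kap s) ≤ (K2 + 3 * K1 + 9 * M ^ 2) * w ^ 4 := by
    linarith
  have g7 : 0 ≤ (Real.log mu - kap s) * N := mul_nonneg (F_nonneg hs) hN0.le
  linarith

end Pool.Agent.X132.Ve
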