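import Pool.Agent.X132.Ve.Sum
import Pool.Agent.Y981.L2.Area5

/-!
# Arches and loops
-/

set_option autoImplicit false

namespace Pool.Agent.X132.Ve

open H981 Finset Filter Topology
open Pool.Agent.TH795.EP
open Pool.Agent.TH795.EP2 (exists_K)
open Pool.Agent.Y981.L2 (area Encl Above loops_finite loop_close ma word_ext)

/-- the area does not depend on the root -/
theorem area_shift {M : ℕ} (g : ZMod M → ℤ × ℤ) (j : ZMod M) (z : ℤ × ℤ) :
    area M (fun k => ((g (k - j)).1 - z.1, (g (k - j)).2 - z.2)) = area M g := by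
  have h1 : ∀ c : ℤ × ℤ, Encl M (fun k => ((g (k - j)).1 - z.1, (g (k - j)).2 - z.2)) c ↔
      Encl M g (c + z) := by
    intro c
    unfold Encl
    have h2 : Nat.card {k : ZMod M //
        Above M (fun k => ((g (k - j)).1 - z.1, (g (k - j)).2 - z.2)) c.1 c.2 k} =
        Nat.card {k : ZMod M // Above M g (c + z).1 (c + z).2 k} := by
      apply Nat.card_congr
      apply Equiv.subtypeEquiv (Equiv.subRight j)
      intro k
      have e : k + 1 - j = (k - j) + 1 := by ring
      unfold Above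
      simp only [Equiv.subRight_apply, e, Prod.fst_add, Prod.snd_add]
      constructor
      · rintro ⟨h3 | h3, h4⟩
        · exact ⟨Or.inl ⟨by omega, by omega⟩, by omega⟩
        · exact ⟨Or.inr ⟨by omega, by omega⟩, by omega⟩
      · rintro ⟨h3 | h3, h4⟩
        · exact ⟨Or.inl ⟨by omega, by omega⟩, by omega⟩
        · exact ⟨Or.inr ⟨by omega, by omega⟩, by omega⟩
    rw [h2]
  unfold area
  apply Nat.card_congr
  apply Equiv.subtypeEquiv (Equiv.addRight z)
  intro c
  rw [h1 c]
  rfl

/-- the set of loops -/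
def LS (n : ℕ) : Set (ZMod (2 * n) → ℤ × ℤ) := {f | IsLoop (2 * n) f}

theorem LS_fin {n : ℕ} (hn : 1 ≤ n) : (LS n).Finite := loops_finite hn

/-- the loops, cut open in the top row -/
theorem loops_le {n : ℕ} (hn : 2 ≤ n) (F : ℕ → ℝ) (hF : ∀ k, 0 ≤ F k) :
    ∑ f ∈ (LS_fin (show 1 ≤ n by omega)).toFinset, F (area (2 * n) f) ≤
      4 * n * ∑ t ∈ fs Arch (2 * n - 1), F (ar2 t) := by
  classical
  have : NeZero (2 * n) := ⟨by omega⟩
  have hex : ∀ f ∈ (LS_fin (show 1 ≤ n by omega)).toFinset, ∃ q : ZMod (2 * n) × Bool × List St,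
      q.2.2 ∈ fs Arch (2 * n - 1) ∧ f = dec (2 * n) q.1 (if q.2.1 then q.2.2 else sg q.2.2) ∧
      F (area (2 * n) f) ≤ F (ar2 q.2.2) := by
    intro f hf
    rw [Set.Finite.mem_toFinset] at hf
    obtain ⟨i, b, t, h1, h2, h3⟩ := loop_arch hn hf
    refine ⟨(i, b, t), mem_fs.2 ⟨h1, h2⟩, h3, ?_⟩
    simp only
    apply le_of_eq
    congr 1
    have hw : ∀ w : List St, w.length = 2 * n - 1 → f = dec (2 * n) i w →
        area (2 * n) f = ar2 w := by
      intro w hwl hw
      rw [hw]
      have e := area_shift (fun k : ZMod (2 * n) => path w k.val) (i + 1)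
        (path w (0 - (i + 1)).val)
      have e2 : dec (2 * n) i w = fun k : ZMod (2 * n) =>
          ((path w (k - (i + 1)).val).1 - (path w (0 - (i + 1)).val).1,
            (path w (k - (i + 1)).val).2 - (path w (0 - (i + 1)).val).2) := rfl
      rw [e2, e]
      exact area_eq (by omega)
    cases b with
    | true =>
      exact hw t h2 (by simpa using h3)
    | false =>
      rw [hw (sg t) (by rw [length_sg]; exact h2) (by simpa using h3), ar2_sg]
  choose! ψ hψ using hex
  have hinj : Set.InjOn ψ (LS_fin (show 1 ≤ n by omega)).toFinset := by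
    intro f hf g hg hfg
    rw [(hψ f hf).2.1, (hψ g hg).2.1, hfg]
  calc ∑ f ∈ (LS_fin (show 1 ≤ n by omega)).toFinset, F (area (2 * n) f)
      ≤ ∑ f ∈ (LS_fin (show 1 ≤ n by omega)).toFinset, F (ar2 (ψ f).2.2) :=
        Finset.sum_le_sum fun f hf => (hψ f hf).2.2
    _ = ∑ q ∈ (LS_fin (show 1 ≤ n by omega)).toFinset.image ψ, F (ar2 q.2.2) := by
        rw [Finset.sum_image hinj]
    _ ≤ ∑ q ∈ (univ : Finset (ZMod (2 * n))) ×ˢ ((univ : Finset Bool) ×ˢ fs Arch (2 * n - 1)),
          F (ar2 q.2.2) := by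
        apply Finset.sum_le_sum_of_subset_of_nonneg
        · intro q hq
          obtain ⟨f, hf, rfl⟩ := Finset.mem_image.1 hq
          rw [Finset.mem_product, Finset.mem_product]
          exact ⟨Finset.mem_univ _, Finset.mem_univ _, (hψ f hf).1⟩
        · intro q _ _
          exact hF _
    _ = _ := by
        rw [Finset.sum_product]
        simp only
        rw [Finset.sum_const, Finset.sum_product]
        simp only
        rw [Finset.sum_const, Finset.card_univ, Finset.card_univ, ZMod.card, Fintype.card_bool,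
          nsmul_eq_mul, nsmul_eq_mul]
        push_cast
        ring

/-- closing the arches -/
theorem le_loops {n : ℕ} (hn : 1 ≤ n) (F : ℕ → ℝ) (hF : ∀ k, 0 ≤ F k) :
    ∑ t ∈ fs Arch (2 * n - 1), F (ar2 t) ≤ ∑ f ∈ (LS_fin hn).toFinset, F (area (2 * n) f) := by
  classical
  have hinj : Set.InjOn (fun V : List St => fun i : ZMod (2 * n) => path V i.val)
      (fs Arch (2 * n - 1)) := by
    intro V hV V' hV' he
    rw [Finset.mem_coe, mem_fs] at hV hV'
    apply word_ext (by omega)
    intro j hj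
    have h1 := congrFun he (j : ZMod (2 * n))
    simp only at h1
    rwa [ZMod.val_cast_of_lt (by omega)] at h1
  have h1 : ∀ t ∈ fs Arch (2 * n - 1), F (ar2 t) =
      F (area (2 * n) (fun i : ZMod (2 * n) => path t i.val)) := by
    intro t ht
    rw [mem_fs] at ht
    rw [area_eq (by omega)]
  rw [Finset.sum_congr rfl h1, ← Finset.sum_image (f := fun f => F (area (2 * n) f)) hinj]
  apply Finset.sum_le_sum_of_subset_of_nonneg
  · intro f hf
    obtain ⟨V, hV, rfl⟩ := Finset.mem_image.1 hf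
    rw [mem_fs] at hV
    rw [Set.Finite.mem_toFinset]
    exact loop_close (by omega) (by omega) hV.1.1 (arch_adj hV.1)
  · intro f _ _
    exact hF _

/-- the weighted sum over the loops -/
noncomputable def Zl (s : ℝ) (n : ℕ) : ℝ :=
  ∑ᶠ f ∈ {f : ZMod (2 * n) → ℤ × ℤ | IsLoop (2 * n) f}, Real.exp (-(s * area (2 * n) f))

theorem Zl_eq (s : ℝ) {n : ℕ} (hn : 1 ≤ n) :
    Zl s n = ∑ f ∈ (LS_fin hn).toFinset, Real.exp (-(s * area (2 * n) f)) :=
  finsum_mem_eq_finite_toFinset_sum _ (LS_fin hn)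

theorem Zl_le (s : ℝ) {n : ℕ} (hn : 2 ≤ n) : Zl s n ≤ 4 * n * Wa s n := by
  rw [Zl_eq s (show 1 ≤ n by omega)]
  exact loops_le hn (fun k => Real.exp (-(s * k))) fun k => (Real.exp_pos _).le

theorem le_Zl (s : ℝ) {n : ℕ} (hn : 1 ≤ n) : Wa s n ≤ Zl s n := by
  rw [Zl_eq s hn]
  exact le_loops hn (fun k => Real.exp (-(s * k))) fun k => (Real.exp_pos _).le

theorem Zl_pos (s : ℝ) {n : ℕ} (hn : 1 ≤ n) : 0 < Zl s n := (Wa_pos s hn).trans_le (le_Zl s hn)

theorem Zl_tendsto {s : ℝ} (hs : 0 ≤ s) :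
    Tendsto (fun n : ℕ => Real.log (Zl s n) / (2 * n)) atTop (𝓝 (kap s)) := by
  have h1 := kap_tendsto hs
  have h2 : Tendsto (fun n : ℕ => Real.log (4 * n) / (2 * (n : ℝ))) atTop (𝓝 0) := by
    have h3 : Tendsto (fun x : ℝ => (Real.log 4 + Real.log x) / x) atTop (𝓝 0) := by
      have h4 : Tendsto (fun x : ℝ => (Real.log 4) / x) atTop (𝓝 0) :=
        tendsto_const_nhds.div_atTop tendsto_id
      have h5 : Tendsto (fun x : ℝ => Real.log x / x) atTop (𝓝 0) :=
        Real.isLittleO_log_id_atTop.tendsto_div_nhds_zero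
      have h6 := h4.add h5
      rw [add_zero] at h6
      refine h6.congr ?_
      intro x
      ring
    have h7 := (h3.comp (tendsto_natCast_atTop_atTop (R := ℝ))).div_const 2
    rw [zero_div] at h7
    refine h7.congr' ?_
    filter_upwards [eventually_ge_atTop 1] with n hn
    have hn0 : (0 : ℝ) < n := by exact_mod_cast (by omega : 0 < n)
    simp only [Function.comp]
    rw [Real.log_mul (by norm_num) hn0.ne']
    field_simp
  have h3 := h1.add h2
  rw [add_zero] at h3
  apply tendsto_of_tendsto_of_tendsto_of_le_of_le' h1 h3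
  · filter_upwards [eventually_ge_atTop 1] with n hn
    apply div_le_div_of_nonneg_right _ (by positivity)
    exact Real.log_le_log (Wa_pos s hn) (le_Zl s hn)
  · filter_upwards [eventually_ge_atTop 2] with n hn
    have hn0 : (0 : ℝ) < n := by exact_mod_cast (by omega : 0 < n)
    rw [← add_div]
    apply div_le_div_of_nonneg_right _ (by positivity)
    have p := Wa_pos s (show 1 ≤ n by omega)
    have h4 := Real.log_le_log (Zl_pos s (show 1 ≤ n by omega)) (Zl_le s hn)
    rw [Real.log_mul (by positivity) p.ne'] at h4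
    linarith

end Pool.Agent.X132.Ve
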