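import Pool.Agent.X132.Ve.Ar
import Pool.Agent.TH795.SE2.Dbl

/-!
# The free energy of polygons weighted by their area
-/

set_option autoImplicit false

namespace Pool.Agent.X132.Ve

open H981 Finset Filter Topology
open Pool.Agent.TH795.EP
open Pool.Agent.TH795.EP2 (exists_K)
open Pool.Agent.TH795.SE2 (one_le_ar)

/-- the weighted sum over the arches -/
noncomputable def Wa (s : ℝ) (n : ℕ) : ℝ := ∑ t ∈ fs Arch (2 * n - 1), Real.exp (-(s * ar2 t))

theorem Wa_pos (s : ℝ) {n : ℕ} (hn : 1 ≤ n) : 0 < Wa s n := by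
  apply Finset.sum_pos (fun _ _ => Real.exp_pos _)
  rw [← Finset.card_pos]
  exact one_le_ar hn

theorem Wa_le_ar {s : ℝ} (hs : 0 ≤ s) (n : ℕ) : Wa s n ≤ ar (2 * n - 1) := by
  unfold Wa ar
  calc _ ≤ ∑ t ∈ fs Arch (2 * n - 1), (1 : ℝ) := by
        apply Finset.sum_le_sum
        intro t _
        rw [Real.exp_le_one_iff]
        have : 0 ≤ s * ar2 t := by positivity
        linarith
    _ = _ := by simp

theorem ar_le_c (n : ℕ) : ar n ≤ c n := by
  unfold ar c
  apply Finset.card_le_card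
  intro t ht
  rw [mem_fs] at ht ⊢
  exact ⟨ht.1.1, ht.2⟩

theorem Wa_mul {s : ℝ} (hs : 0 ≤ s) {m n : ℕ} (hm : 1 ≤ m) (hn : 1 ≤ n) :
    Wa s m * Wa s n * Real.exp (-s) ≤ 2 * m * Wa s (m + n) := by
  have h := pairs_sum (m := 2 * m - 1) (L := 2 * n - 1)
    (fs Arch (2 * m - 1) ×ˢ fs Arch (2 * n - 1))
    (fun p => Real.exp (-(s * ar2 p.1)) * Real.exp (-(s * ar2 p.2)) * Real.exp (-s)) Arch
    (fun W => Real.exp (-(s * ar2 W))) (fun _ => (Real.exp_pos _).le) (by
    rintro ⟨V, t⟩ hp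
    rw [Finset.mem_product, mem_fs, mem_fs] at hp
    obtain ⟨⟨hV, hVl⟩, ht, htl⟩ := hp
    simp only at hV hVl ht htl
    obtain ⟨i, hi, hs', hmin⟩ := arch_bot hV
    obtain ⟨h1, h2⟩ := arch_ins hV ht hi hs' hmin
    refine ⟨i, hi, hVl, htl, hs', ht.2.1, h1, ?_⟩
    simp only
    rw [← Real.exp_add, ← Real.exp_add]
    apply Real.exp_le_exp.2
    have h3 : (ar2 (ins V i (tw V[i] t)) : ℝ) ≤ ar2 V + ar2 t + 1 := by exact_mod_cast h2
    have h4 := mul_le_mul_of_nonneg_left h3 hs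
    linarith)
  have e1 : 2 * m - 1 + (2 * n - 1) + 1 = 2 * (m + n) - 1 := by omega
  rw [e1] at h
  have e2 : ∑ p ∈ fs Arch (2 * m - 1) ×ˢ fs Arch (2 * n - 1),
      Real.exp (-(s * ar2 p.1)) * Real.exp (-(s * ar2 p.2)) * Real.exp (-s) =
      Wa s m * Wa s n * Real.exp (-s) := by
    unfold Wa
    rw [Finset.sum_product, Finset.sum_mul_sum, Finset.sum_mul]
    apply Finset.sum_congr rfl
    intro V _
    rw [Finset.sum_mul]
  rw [e2] at h
  refine h.trans ?_
  apply mul_le_mul_of_nonneg_right _ (Wa_pos s (by omega)).le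
  have : 2 * m - 1 ≤ 2 * m := by omega
  exact_mod_cast this

/-- the subadditive sequence -/
noncomputable def us (s : ℝ) (n : ℕ) : ℝ :=
  if n = 0 then 0 else s + Real.log (4 * n) - Real.log (Wa s n)

theorem us_add {s : ℝ} (hs : 0 ≤ s) {m n : ℕ} (hm : 1 ≤ m) (hmn : m ≤ n) :
    us s (m + n) ≤ us s m + us s n := by
  have hn : 1 ≤ n := hm.trans hmn
  unfold us
  rw [if_neg (by omega), if_neg (by omega), if_neg (by omega)]
  have h := Wa_mul hs hm hn
  have p1 := Wa_pos s hm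
  have p2 := Wa_pos s hn
  have p3 := Wa_pos s (show 1 ≤ m + n by omega)
  have hm0 : (0 : ℝ) < m := by exact_mod_cast (by omega : 0 < m)
  have hn0 : (0 : ℝ) < n := by exact_mod_cast (by omega : 0 < n)
  have h2 := Real.log_le_log (by positivity) h
  rw [Real.log_mul (by positivity) (Real.exp_pos _).ne', Real.log_mul p1.ne' p2.ne', Real.log_exp,
    Real.log_mul (by positivity) p3.ne'] at h2
  have h3 : Real.log (4 * ((m + n : ℕ) : ℝ)) + Real.log (2 * m) ≤
      Real.log (4 * m) + Real.log (4 * n) := by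
    rw [← Real.log_mul (by push_cast; positivity) (by positivity),
      ← Real.log_mul (by positivity) (by positivity)]
    apply Real.log_le_log (by push_cast; positivity)
    push_cast
    have : (m : ℝ) ≤ n := by exact_mod_cast hmn
    nlinarith
  linarith

theorem us_sub {s : ℝ} (hs : 0 ≤ s) : Subadditive (us s) := by
  intro m n
  rcases Nat.eq_zero_or_pos m with rfl | hm
  · rw [zero_add]
    have : us s 0 = 0 := by unfold us; rw [if_pos rfl]
    linarith
  · rcases Nat.eq_zero_or_pos n with rfl | hn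
    · rw [add_zero]
      have : us s 0 = 0 := by unfold us; rw [if_pos rfl]
      linarith
    · rcases Nat.le_total m n with h | h
      · exact us_add hs hm h
      · rw [add_comm m n, add_comm (us s m)]
        exact us_add hs hn h

theorem log_ar_le : ∃ C : ℝ, 0 ≤ C ∧ ∀ n : ℕ, 1 ≤ n → Real.log (ar (2 * n - 1)) ≤ C * n := by
  obtain ⟨K, hK, h, -⟩ := exists_K
  have hmu := mu_pos
  have hlmu : 0 ≤ Real.log mu := Real.log_nonneg one_le_mu
  refine ⟨2 * Real.log mu + 8 * K, by positivity, ?_⟩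
  intro n hn
  have hn0 : (0 : ℝ) < n := by exact_mod_cast (by omega : 0 < n)
  have h1 : (1 : ℝ) ≤ ar (2 * n - 1) := by exact_mod_cast one_le_ar hn
  have h2 : (ar (2 * n - 1) : ℝ) ≤ c (2 * n - 1) := by exact_mod_cast ar_le_c _
  have h3 := h (2 * n) (by omega) (2 * n - 1) (by omega)
  unfold Pool.Agent.TH795.EP2.q at h3
  have h4 := Real.log_le_log (by linarith) (h2.trans h3)
  rw [Real.log_mul (by positivity) (Real.exp_pos _).ne', Real.log_exp, Real.log_pow] at h4
  refine h4.trans ?_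
  have h5 : ((2 * n - 1 : ℕ) : ℝ) * Real.log mu ≤ (2 * n) * Real.log mu := by
    apply mul_le_mul_of_nonneg_right _ hlmu
    have : 2 * n - 1 ≤ 2 * n := by omega
    exact_mod_cast this
  have h6 : Real.log ((2 * n : ℕ) : ℝ) ^ 2 ≤ 8 * n := by
    have h7 : (0 : ℝ) < ((2 * n : ℕ) : ℝ) := by exact_mod_cast (by omega : 0 < 2 * n)
    have h8 : Real.log ((2 * n : ℕ) : ℝ) = 2 * Real.log (Real.sqrt ((2 * n : ℕ) : ℝ)) := by
      rw [Real.log_sqrt h7.le]; ring
    have h9 : Real.log (Real.sqrt ((2 * n : ℕ) : ℝ)) ≤ Real.sqrt ((2 * n : ℕ) : ℝ) := by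
      have := Real.log_le_sub_one_of_pos (Real.sqrt_pos.2 h7)
      linarith
    have h10 : 0 ≤ Real.log ((2 * n : ℕ) : ℝ) := Real.log_natCast_nonneg _
    have h11 : Real.log ((2 * n : ℕ) : ℝ) ^ 2 ≤ (2 * Real.sqrt ((2 * n : ℕ) : ℝ)) ^ 2 := by
      apply pow_le_pow_left₀ h10
      linarith
    rw [mul_pow, Real.sq_sqrt h7.le] at h11
    push_cast at h11 ⊢
    linarith
  nlinarith [mul_le_mul_of_nonneg_left h6 hK]

theorem log_Wa_le : ∃ C : ℝ, 0 ≤ C ∧ ∀ s : ℝ, 0 ≤ s → ∀ n : ℕ, 1 ≤ n →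
    Real.log (Wa s n) ≤ C * n := by
  obtain ⟨C, hC, h⟩ := log_ar_le
  refine ⟨C, hC, fun s hs n hn => ?_⟩
  exact (Real.log_le_log (Wa_pos s hn) (Wa_le_ar hs n)).trans (h n hn)

theorem us_bdd {s : ℝ} (hs : 0 ≤ s) : BddBelow (Set.range fun n : ℕ => us s n / n) := by
  obtain ⟨C, hC, h⟩ := log_Wa_le
  refine ⟨-C, ?_⟩
  rintro _ ⟨n, rfl⟩
  simp only
  rcases Nat.eq_zero_or_pos n with rfl | hn
  · simp [us, hC]
  · have hn0 : (0 : ℝ) < n := by exact_mod_cast hn
    rw [le_div_iff₀ hn0]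
    unfold us
    rw [if_neg (by omega)]
    have h1 := h s hs n hn
    have h2 : 0 ≤ Real.log (4 * n) := Real.log_nonneg (by
      have : (1 : ℝ) ≤ n := by exact_mod_cast hn
      linarith)
    linarith

/-- the free energy -/
noncomputable def kap (s : ℝ) : ℝ := -sInf ((fun n : ℕ => us s n / n) '' Set.Ici 1) / 2

theorem kap_tendsto {s : ℝ} (hs : 0 ≤ s) :
    Tendsto (fun n : ℕ => Real.log (Wa s n) / (2 * n)) atTop (𝓝 (kap s)) := by
  have h1 : Tendsto (fun n : ℕ => us s n / n) atTop (𝓝 (us_sub hs).lim) :=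
    (us_sub hs).tendsto_lim (us_bdd hs)
  have h2 : Tendsto (fun n : ℕ => (s + Real.log (4 * n)) / n) atTop (𝓝 0) := by
    have h3 : Tendsto (fun x : ℝ => (s + Real.log 4 + Real.log x) / x) atTop (𝓝 0) := by
      have h4 : Tendsto (fun x : ℝ => (s + Real.log 4) / x) atTop (𝓝 0) :=
        tendsto_const_nhds.div_atTop tendsto_id
      have h5 : Tendsto (fun x : ℝ => Real.log x / x) atTop (𝓝 0) :=
        Real.isLittleO_log_id_atTop.tendsto_div_nhds_zero
      have h6 := h4.add h5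
      rw [add_zero] at h6
      refine h6.congr ?_
      intro x
      ring
    have h7 := h3.comp (tendsto_natCast_atTop_atTop (R := ℝ))
    refine h7.congr' ?_
    filter_upwards [eventually_ge_atTop 1] with n hn
    have hn0 : (0 : ℝ) < n := by exact_mod_cast (by omega : 0 < n)
    simp only [Function.comp]
    rw [Real.log_mul (by norm_num) hn0.ne']
    ring
  have h3 := (h2.sub h1).div_const 2
  have e : (0 - (us_sub hs).lim) / 2 = kap s := by
    unfold kap Subadditive.lim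
    ring
  rw [e] at h3
  refine h3.congr' ?_
  filter_upwards [eventually_ge_atTop 1] with n hn
  have hn0 : (0 : ℝ) < n := by exact_mod_cast (by omega : 0 < n)
  unfold us
  rw [if_neg (by omega)]
  field_simp
  ring

theorem log_Wa_le_kap {s : ℝ} (hs : 0 ≤ s) {n : ℕ} (hn : 1 ≤ n) :
    Real.log (Wa s n) ≤ 2 * n * kap s + s + Real.log (4 * n) := by
  have h1 := (us_sub hs).lim_le_div (us_bdd hs) (show n ≠ 0 by omega)
  have hn0 : (0 : ℝ) < n := by exact_mod_cast (by omega : 0 < n)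
  rw [le_div_iff₀ hn0] at h1
  have e : kap s = -(us_sub hs).lim / 2 := by
    unfold kap Subadditive.lim
    rfl
  unfold us at h1
  rw [if_neg (by omega)] at h1
  obtain ⟨l, hl⟩ : ∃ l, l = (us_sub hs).lim := ⟨_, rfl⟩
  change (us_sub hs).lim * n ≤ _ at h1
  rw [← hl] at h1 e
  rw [e]
  have e2 : 2 * (n : ℝ) * (-l / 2) = -(l * n) := by ring
  rw [e2]
  linarith

theorem Wa_anti {s s' : ℝ} (h : s ≤ s') (n : ℕ) : Wa s' n ≤ Wa s n := by
  unfold Wa
  apply Finset.sum_le_sum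
  intro t _
  apply Real.exp_le_exp.2
  have : (0 : ℝ) ≤ ar2 t := by positivity
  nlinarith

theorem kap_anti {s s' : ℝ} (hs : 0 ≤ s) (h : s ≤ s') : kap s' ≤ kap s := by
  apply le_of_tendsto_of_tendsto (kap_tendsto (hs.trans h)) (kap_tendsto hs)
  filter_upwards [eventually_ge_atTop 1] with n hn
  apply div_le_div_of_nonneg_right _ (by positivity)
  exact Real.log_le_log (Wa_pos s' hn) (Wa_anti h n)

end Pool.Agent.X132.Ve
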